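import Mathlib

set_option autoImplicit false

namespace Pool.Agent.Results.MP_ba6bee_co.Counterexample

open Matrix

/-! ### The notions of the problem -/

/-- Hadamard matrices of order `n`. -/
def IsHadamard {n : ℕ} (H : Matrix (Fin n) (Fin n) ℤ) : Prop :=
  (∀ i j, H i j = 1 ∨ H i j = -1) ∧ H * Hᵀ = (n : ℤ) • (1 : Matrix (Fin n) (Fin n) ℤ)

/-- The maximum over all sign vectors `a`, indexed by the rows other than `r`, of the sum over the
columns `j` of the absolute value of `∑ i ≠ r, H i j * a i`. -/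
noncomputable def C {n : ℕ} (H : Matrix (Fin n) (Fin n) ℤ) (r : Fin n) : ℤ :=
  Finset.univ.sup' Finset.univ_nonempty
    (fun a : {i : Fin n // i ≠ r} → ℤˣ => ∑ j : Fin n, |∑ i : {i : Fin n // i ≠ r}, H i j * (a i : ℤ)|)

/-! ### The matrices -/

/-- The Sylvester sign. -/
def sgn (m : ℕ) : ℤ :=
  if (m.testBit 0 ^^ m.testBit 1 ^^ m.testBit 2 ^^ m.testBit 3) then -1 else 1

/-- The Sylvester matrix of order sixteen. -/
def S : Matrix (Fin 16) (Fin 16) ℤ := fun i j => sgn (i.val &&& j.val)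

/-- Exchange of the columns `0` and `4`. -/
def swp (j : Fin 16) : Fin 16 := if j = 0 then 4 else if j = 4 then 0 else j

/-- The second matrix of order sixteen. -/
def B : Matrix (Fin 16) (Fin 16) ℤ := fun i j =>
  if i.val % 4 = 0 ∧ (swp j).val < 4 then - S i (swp j) else S i (swp j)

theorem S_entry : ∀ i j, S i j = 1 ∨ S i j = -1 := by decide +kernel
theorem B_entry : ∀ i j, B i j = 1 ∨ B i j = -1 := by decide +kernel
theorem S_mul : S * Sᵀ = (16 : ℤ) • (1 : Matrix (Fin 16) (Fin 16) ℤ) := by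
  decide +kernel
theorem B_mul : B * Bᵀ = (16 : ℤ) • (1 : Matrix (Fin 16) (Fin 16) ℤ) := by
  decide +kernel
theorem S_mul' : Sᵀ * S = (16 : ℤ) • (1 : Matrix (Fin 16) (Fin 16) ℤ) := by
  decide +kernel
theorem B_mul' : Bᵀ * B = (16 : ℤ) • (1 : Matrix (Fin 16) (Fin 16) ℤ) := by
  decide +kernel


/-! ### General facts on matrices with orthogonal rows and columns -/

section General

variable (M : Matrix (Fin 16) (Fin 16) ℤ)

theorem norm_mulVec (h : Mᵀ * M = (16 : ℤ) • (1 : Matrix (Fin 16) (Fin 16) ℤ)) (w : Fin 16 → ℤ) :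
    ∑ i, (M *ᵥ w) i ^ 2 = 16 * ∑ j, w j ^ 2 := by
  have h1 : (M *ᵥ w) ⬝ᵥ (M *ᵥ w) = 16 * (w ⬝ᵥ w) := by
    rw [dotProduct_mulVec, ← mulVec_transpose, mulVec_mulVec, h, smul_mulVec, one_mulVec,
      smul_dotProduct, smul_eq_mul]
  simp only [dotProduct] at h1
  simp only [pow_two]
  exact h1

theorem transpose_mulVec_mulVec
    (h : Mᵀ * M = (16 : ℤ) • (1 : Matrix (Fin 16) (Fin 16) ℤ)) (w : Fin 16 → ℤ) (j : Fin 16) :
    (Mᵀ *ᵥ (M *ᵥ w)) j = 16 * w j := by
  rw [mulVec_mulVec, h, smul_mulVec, one_mulVec]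
  rfl

/-- The balanced residue modulo three. -/
def bal (y : ℤ) : ℤ := if y % 3 = 0 then 0 else if y % 3 = 1 then 1 else -1

theorem bal_dvd (y : ℤ) : (3 : ℤ) ∣ y - bal y := by
  unfold bal
  split_ifs <;> omega

theorem bal_sq (y : ℤ) : bal y ^ 2 = 0 ∨ bal y ^ 2 = 1 := by
  unfold bal
  split_ifs <;> simp

/-- The penalty of an odd entry. -/
def g (y : ℤ) : ℤ := (|y| - 1) * (|y| - 3)

theorem g_eq (y : ℤ) : g y = y ^ 2 - 4 * |y| + 3 := by
  unfold g
  nlinarith [sq_abs y]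

theorem abs_odd (y : ℤ) (hy : y % 2 = 1) : |y| % 2 = 1 ∧ 0 ≤ |y| := by
  have h1 := abs_nonneg y
  rcases abs_choice y with h | h <;> omega

theorem g_dvd (y : ℤ) (hy : y % 2 = 1) : (8 : ℤ) ∣ g y := by
  obtain ⟨k, hk⟩ : ∃ k : ℤ, |y| = 2 * k + 1 := ⟨(|y| - 1) / 2, by
    have := abs_odd y hy; omega⟩
  unfold g
  rw [hk]
  have h1 : (2 * k + 1 - 1) * (2 * k + 1 - 3) = 4 * ((k - 1) * (k - 1 + 1)) := by ring
  rw [h1]
  obtain ⟨m, hm⟩ := Int.even_mul_succ_self (k - 1)
  rw [hm]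
  exact ⟨m, by ring⟩

theorem g_nonneg (y : ℤ) (hy : y % 2 = 1) : 0 ≤ g y := by
  unfold g
  rcases le_or_gt 3 |y| with h | h
  · exact mul_nonneg (by omega) (by omega)
  · have : |y| = 1 := by have := abs_odd y hy; omega
    rw [this]; norm_num

theorem g_lower (y : ℤ) (hy : y % 2 = 1) : y ^ 2 - 9 ≤ 2 * g y := by
  have h0 : y ^ 2 = |y| ^ 2 := (sq_abs y).symm
  rw [h0]
  unfold g
  have h1 : |y| = 1 ∨ |y| = 3 ∨ 5 ≤ |y| := by have := abs_odd y hy; omega
  rcases h1 with h | h | h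
  · rw [h]; norm_num
  · rw [h]; norm_num
  · nlinarith

theorem bal_upper (y : ℤ) (hy : y % 2 = 1) : 8 * bal y ^ 2 ≤ 9 - y ^ 2 + 3 * g y := by
  have h0 : y ^ 2 = |y| ^ 2 := (sq_abs y).symm
  have h1 : |y| = 1 ∨ |y| = 3 ∨ 5 ≤ |y| := by have := abs_odd y hy; omega
  have h2 : bal y ^ 2 ≤ 1 := by rcases bal_sq y with h | h <;> omega
  rw [h0]
  unfold g
  rcases h1 with h | h | h
  · rw [h]; linarith
  · have : bal y = 0 := by
      unfold bal
      rw [if_pos (by rcases abs_choice y with h' | h' <;> omega)]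
    rw [h, this]; norm_num
  · nlinarith

variable {M}

theorem parity_mulVec (hM : ∀ i j, M i j = 1 ∨ M i j = -1) (w : Fin 16 → ℤ)
    (hw : ∀ j, w j = 0 ∨ w j = 1 ∨ w j = -1) (i : Fin 16) :
    (2 : ℤ) ∣ (M *ᵥ w) i - ∑ j, w j ^ 2 := by
  simp only [mulVec, dotProduct]
  rw [← Finset.sum_sub_distrib]
  apply Finset.dvd_sum
  intro j _
  rcases hM i j with h | h <;> rcases hw j with h' | h' | h' <;> rw [h, h'] <;> norm_num

/-- The main estimate in the odd case. -/
theorem odd_estimate (hM : ∀ i j, M i j = 1 ∨ M i j = -1)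
    (h1 : Mᵀ * M = (16 : ℤ) • (1 : Matrix (Fin 16) (Fin 16) ℤ))
    (h2 : M * Mᵀ = (16 : ℤ) • (1 : Matrix (Fin 16) (Fin 16) ℤ))
    (w : Fin 16 → ℤ) (hw : ∀ j, w j = 0 ∨ w j = 1 ∨ w j = -1)
    (hodd : (∑ j, w j ^ 2) % 2 = 1) (h9 : 9 ≤ ∑ j, w j ^ 2) :
    16 ≤ ∑ i, g ((M *ᵥ w) i) := by
  have hyodd : ∀ i, (M *ᵥ w) i % 2 = 1 := by
    intro i
    have := parity_mulVec hM w hw i
    omega
  have hnorm := norm_mulVec M h1 w
  have hcol := transpose_mulVec_mulVec M h1 w
  set y := M *ᵥ w with hy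
  have hsum : ∑ i, (y i ^ 2 - 9) ≤ ∑ i, 2 * g (y i) :=
    Finset.sum_le_sum (fun i _ => g_lower (y i) (hyodd i))
  rw [Finset.sum_sub_distrib, ← Finset.mul_sum, hnorm] at hsum
  simp only [Finset.sum_const, Finset.card_univ, Fintype.card_fin, nsmul_eq_mul] at hsum
  push_cast at hsum
  set K := ∑ j, w j ^ 2 with hK
  by_contra hlt
  push Not at hlt
  have hK9 : K = 9 := by omega
  have hdvd : (8 : ℤ) ∣ ∑ i, g (y i) := Finset.dvd_sum (fun i _ => g_dvd (y i) (hyodd i))
  have hle8 : ∑ i, g (y i) ≤ 8 := by omega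
  -- the reduction modulo three
  set τ : Fin 16 → ℤ := fun i => bal (y i) with hτ
  have hT : 8 * ∑ i, τ i ^ 2 ≤ 24 := by
    have h3 : ∑ i, 8 * τ i ^ 2 ≤ ∑ i, (9 - y i ^ 2 + 3 * g (y i)) :=
      Finset.sum_le_sum (fun i _ => bal_upper (y i) (hyodd i))
    rw [Finset.sum_add_distrib, Finset.sum_sub_distrib, ← Finset.mul_sum, ← Finset.mul_sum,
      hnorm] at h3
    simp only [Finset.sum_const, Finset.card_univ, Fintype.card_fin, nsmul_eq_mul] at h3
    push_cast at h3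
    omega
  have h2' : (Mᵀ)ᵀ * Mᵀ = (16 : ℤ) • (1 : Matrix (Fin 16) (Fin 16) ℤ) := by
    rw [transpose_transpose]; exact h2
  have hnormτ := norm_mulVec Mᵀ h2' τ
  have hM' : ∀ i j, Mᵀ i j = 1 ∨ Mᵀ i j = -1 := fun i j => hM j i
  have hτv : ∀ j, τ j = 0 ∨ τ j = 1 ∨ τ j = -1 := by
    intro j
    simp only [hτ, bal]
    split_ifs <;> simp
  have hparτ := parity_mulVec hM' τ hτv
  have hmod : ∀ j, (3 : ℤ) ∣ (Mᵀ *ᵥ τ) j - w j := by
    intro j
    have h4 : (3 : ℤ) ∣ (Mᵀ *ᵥ y) j - (Mᵀ *ᵥ τ) j := by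
      simp only [mulVec, dotProduct]
      rw [← Finset.sum_sub_distrib]
      apply Finset.dvd_sum
      intro i _
      rw [← mul_sub]
      exact Dvd.dvd.mul_left (bal_dvd (y i)) _
    rw [hcol j] at h4
    omega
  set z := Mᵀ *ᵥ τ with hz
  set T := ∑ i, τ i ^ 2 with hTdef
  have hT0 : 0 ≤ T := Finset.sum_nonneg (fun i _ => sq_nonneg _)
  rcases Int.emod_two_eq_zero_or_one T with hTe | hTo
  · have h5 : ∀ j, 4 * w j ^ 2 ≤ z j ^ 2 := by
      intro j
      have ha := hmod j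
      have hb := hparτ j
      rcases hw j with h | h | h
      · rw [h]; nlinarith [sq_nonneg (z j)]
      · have hc : z j ≤ -2 ∨ 2 ≤ z j := by omega
        rw [h]
        rcases hc with hc | hc <;> nlinarith
      · have hc : z j ≤ -2 ∨ 2 ≤ z j := by omega
        rw [h]
        rcases hc with hc | hc <;> nlinarith
    have h6 : ∑ j, 4 * w j ^ 2 ≤ ∑ j, z j ^ 2 := Finset.sum_le_sum (fun j _ => h5 j)
    rw [← Finset.mul_sum, hnormτ] at h6
    omega
  · have h5 : ∀ j, 9 - 8 * w j ^ 2 ≤ z j ^ 2 := by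
      intro j
      have ha := hmod j
      have hb := hparτ j
      rcases hw j with h | h | h
      · have hc : z j ≤ -3 ∨ 3 ≤ z j := by omega
        rw [h]
        rcases hc with hc | hc <;> nlinarith
      · have hc : z j ≤ -1 ∨ 1 ≤ z j := by omega
        rw [h]
        rcases hc with hc | hc <;> nlinarith
      · have hc : z j ≤ -1 ∨ 1 ≤ z j := by omega
        rw [h]
        rcases hc with hc | hc <;> nlinarith
    have h6 : ∑ j, (9 - 8 * w j ^ 2) ≤ ∑ j, z j ^ 2 := Finset.sum_le_sum (fun j _ => h5 j)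
    rw [Finset.sum_sub_distrib, ← Finset.mul_sum, hnormτ] at h6
    simp only [Finset.sum_const, Finset.card_univ, Fintype.card_fin, nsmul_eq_mul] at h6
    push_cast at h6
    omega

end General

/-! ### The even case -/

/-- The penalty of an even entry. -/
def h (y : ℤ) : ℤ := (|y| - 2) * (|y| - 4)

theorem h_eq (y : ℤ) : h y = y ^ 2 - 6 * |y| + 8 := by
  unfold h
  nlinarith [sq_abs y]

theorem h_nonneg (y : ℤ) (hy : y % 2 = 0) : 0 ≤ h y := by
  unfold h
  have h1 : |y| ≤ 2 ∨ 4 ≤ |y| := by rcases abs_choice y with h' | h' <;> omega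
  rcases h1 with h1 | h1
  · exact mul_nonneg_of_nonpos_of_nonpos (by omega) (by omega)
  · exact mul_nonneg (by omega) (by omega)

theorem h_zero (y : ℤ) (hy : h y = 0) : y = 2 ∨ y = -2 ∨ y = 4 ∨ y = -4 := by
  unfold h at hy
  rcases mul_eq_zero.mp hy with h1 | h1 <;> rcases abs_choice y with h' | h' <;> omega

theorem par4 (a b c : Fin 16) (habc : ∀ j, S c j = S a j * S b j) (u : Fin 16 → ℤ)
    (hu : ∀ j, u j = 0 ∨ u j = 1 ∨ u j = -1) :
    (4 : ℤ) ∣ (S *ᵥ u) a + (S *ᵥ u) b + (S *ᵥ u) c + (S *ᵥ u) 0 := by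
  have h0 : ∀ j, S 0 j = 1 := by decide +kernel
  simp only [mulVec, dotProduct]
  rw [← Finset.sum_add_distrib, ← Finset.sum_add_distrib, ← Finset.sum_add_distrib]
  apply Finset.dvd_sum
  intro j _
  rw [habc j, h0 j]
  rcases S_entry a j with h1 | h1 <;> rcases S_entry b j with h2 | h2 <;>
    rcases hu j with h3 | h3 | h3 <;> rw [h1, h2, h3] <;> norm_num

theorem even_contradiction (u : Fin 16 → ℤ) (hu : ∀ j, u j = 0 ∨ u j = 1 ∨ u j = -1)
    (heven : (∑ j, u j ^ 2) % 2 = 0) (h0 : (S *ᵥ u) 0 = 0)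
    (hP : ∀ i, i ≠ 0 → h ((S *ᵥ u) i) = 0) : False := by
  have hnorm := norm_mulVec S S_mul' u
  have r3 := par4 1 2 3 (by decide +kernel) u hu
  have r5 := par4 1 4 5 (by decide +kernel) u hu
  have r6 := par4 2 4 6 (by decide +kernel) u hu
  have r7 := par4 3 4 7 (by decide +kernel) u hu
  have r9 := par4 1 8 9 (by decide +kernel) u hu
  have r10 := par4 2 8 10 (by decide +kernel) u hu
  have r11 := par4 3 8 11 (by decide +kernel) u hu
  have r12 := par4 4 8 12 (by decide +kernel) u hu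
  have r13 := par4 5 8 13 (by decide +kernel) u hu
  have r14 := par4 6 8 14 (by decide +kernel) u hu
  have r15 := par4 7 8 15 (by decide +kernel) u hu
  set P := S *ᵥ u with hPdef
  set K := ∑ j, u j ^ 2 with hK
  clear_value P K
  rw [h0] at r3 r5 r6 r7 r9 r10 r11 r12 r13 r14 r15
  have hsq : ∀ i, i ≠ 0 → P i ^ 2 = 16 - 6 * (P i % 4) := by
    intro i hi
    rcases h_zero _ (hP i hi) with h' | h' | h' | h' <;> rw [h'] <;> norm_num
  have hm : ∀ i, i ≠ 0 → (P i % 4 = 0 ∨ P i % 4 = 2) := by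
    intro i hi
    rcases h_zero _ (hP i hi) with h' | h' | h' | h' <;> rw [h'] <;> norm_num
  have hc : ∀ a b c : Fin 16, (4 : ℤ) ∣ P a + P b + P c + 0 → P c % 4 = (-(P a % 4 + P b % 4)) % 4 := by
    intro a b c hd
    omega
  have hexp : ∑ i, P i ^ 2 = P 1 ^ 2 + P 2 ^ 2 + P 3 ^ 2 + P 4 ^ 2 + P 5 ^ 2 + P 6 ^ 2 +
      P 7 ^ 2 + P 8 ^ 2 + P 9 ^ 2 + P 10 ^ 2 + P 11 ^ 2 + P 12 ^ 2 + P 13 ^ 2 + P 14 ^ 2 +
      P 15 ^ 2 := by
    simp only [Fin.sum_univ_succ, h0]
    simp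
    ring
  rw [hexp] at hnorm
  rw [hsq 1 (by decide), hsq 2 (by decide), hsq 3 (by decide), hsq 4 (by decide),
    hsq 5 (by decide), hsq 6 (by decide), hsq 7 (by decide), hsq 8 (by decide),
    hsq 9 (by decide), hsq 10 (by decide), hsq 11 (by decide), hsq 12 (by decide),
    hsq 13 (by decide), hsq 14 (by decide), hsq 15 (by decide)] at hnorm
  have t3 := hc _ _ _ r3
  have t5 := hc _ _ _ r5
  have t6 := hc _ _ _ r6
  have t7 := hc _ _ _ r7
  have t9 := hc _ _ _ r9
  have t10 := hc _ _ _ r10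
  have t11 := hc _ _ _ r11
  have t12 := hc _ _ _ r12
  have t13 := hc _ _ _ r13
  have t14 := hc _ _ _ r14
  have t15 := hc _ _ _ r15
  have m1 := hm 1 (by decide)
  have m2 := hm 2 (by decide)
  have m4 := hm 4 (by decide)
  have m8 := hm 8 (by decide)
  clear hsq hm hc hP r3 r5 r6 r7 r9 r10 r11 r12 r13 r14 r15 hexp
  generalize P 1 % 4 = e1 at *
  generalize P 2 % 4 = e2 at *
  generalize P 3 % 4 = e3 at *
  generalize P 4 % 4 = e4 at *
  generalize P 5 % 4 = e5 at *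
  generalize P 6 % 4 = e6 at *
  generalize P 7 % 4 = e7 at *
  generalize P 8 % 4 = e8 at *
  generalize P 9 % 4 = e9 at *
  generalize P 10 % 4 = e10 at *
  generalize P 11 % 4 = e11 at *
  generalize P 12 % 4 = e12 at *
  generalize P 13 % 4 = e13 at *
  generalize P 14 % 4 = e14 at *
  generalize P 15 % 4 = e15 at *
  rcases m1 with m1 | m1 <;> rcases m2 with m2 | m2 <;>
    rcases m4 with m4 | m4 <;> rcases m8 with m8 | m8 <;>
    · rw [m1, m2] at t3
      rw [m1, m4] at t5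
      rw [m2, m4] at t6
      norm_num at t3 t5 t6
      rw [t3, m4] at t7
      norm_num at t7
      rw [m1, m8] at t9
      rw [m2, m8] at t10
      rw [t3, m8] at t11
      rw [m4, m8] at t12
      rw [t5, m8] at t13
      rw [t6, m8] at t14
      rw [t7, m8] at t15
      norm_num at t9 t10 t11 t12 t13 t14 t15
      rw [m1, m2, t3, m4, t5, t6, t7, m8, t9, t10, t11, t12, t13, t14, t15] at hnorm
      omega

/-! ### Both cases together -/

theorem sum_g (y : Fin 16 → ℤ) :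
    ∑ i, g (y i) = ∑ i, y i ^ 2 - 4 * ∑ i, |y i| + 48 := by
  simp only [g_eq, Finset.sum_add_distrib, Finset.sum_sub_distrib, Finset.sum_const,
    Finset.card_univ, Fintype.card_fin, nsmul_eq_mul, ← Finset.mul_sum]
  norm_num

theorem sum_h (y : Fin 16 → ℤ) :
    ∑ i, h (y i) = ∑ i, y i ^ 2 - 6 * ∑ i, |y i| + 128 := by
  simp only [h_eq, Finset.sum_add_distrib, Finset.sum_sub_distrib, Finset.sum_const,
    Finset.card_univ, Fintype.card_fin, nsmul_eq_mul, ← Finset.mul_sum]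
  norm_num

theorem main_bound (u v : Fin 16 → ℤ) (hu : ∀ j, u j = 0 ∨ u j = 1 ∨ u j = -1)
    (hv : ∀ j, v j = 0 ∨ v j = 1 ∨ v j = -1) (huv : ∑ j, u j ^ 2 + ∑ j, v j ^ 2 = 16) :
    ∑ i, |(S *ᵥ u) i| + ∑ i, |(B *ᵥ v) i| - |(S *ᵥ u) 0| ≤ 83 := by
  have nP := norm_mulVec S S_mul' u
  have nQ := norm_mulVec B B_mul' v
  have pP := parity_mulVec S_entry u hu
  have pQ := parity_mulVec B_entry v hv
  rcases Int.emod_two_eq_zero_or_one (∑ j, u j ^ 2) with he | ho
  · -- even case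
    by_contra hlt
    push Not at hlt
    have hP2 : ∀ i, (S *ᵥ u) i % 2 = 0 := fun i => by have := pP i; omega
    have hQ2 : ∀ i, (B *ᵥ v) i % 2 = 0 := fun i => by have := pQ i; omega
    have h1 := sum_h (S *ᵥ u)
    have h2 := sum_h (B *ᵥ v)
    have h3 : 0 ≤ ∑ i, h ((B *ᵥ v) i) := Finset.sum_nonneg (fun i _ => h_nonneg _ (hQ2 i))
    have h4 : ∑ i, h ((S *ᵥ u) i) = h ((S *ᵥ u) 0) + ∑ i ∈ Finset.univ.erase 0, h ((S *ᵥ u) i) :=
      (Finset.add_sum_erase _ _ (Finset.mem_univ _)).symm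
    have h5 : 0 ≤ ∑ i ∈ Finset.univ.erase 0, h ((S *ᵥ u) i) :=
      Finset.sum_nonneg (fun i _ => h_nonneg _ (hP2 i))
    have h6 := h_eq ((S *ᵥ u) 0)
    have h7 := sq_nonneg ((S *ᵥ u) 0)
    have h8 : (S *ᵥ u) 0 ^ 2 = 0 := by linarith
    have h9 : ∑ i ∈ Finset.univ.erase 0, h ((S *ᵥ u) i) = 0 := by linarith
    have h10 : (S *ᵥ u) 0 = 0 := by
      rcases pow_eq_zero_iff (two_ne_zero) |>.mp h8 with h'
      exact h'
    refine even_contradiction u hu he h10 ?_
    intro i hi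
    exact (Finset.sum_eq_zero_iff_of_nonneg (fun i _ => h_nonneg _ (hP2 i))).mp h9 i
      (Finset.mem_erase.mpr ⟨hi, Finset.mem_univ _⟩)
  · -- odd case
    have hP2 : ∀ i, (S *ᵥ u) i % 2 = 1 := fun i => by have := pP i; omega
    have hQ2 : ∀ i, (B *ᵥ v) i % 2 = 1 := fun i => by have := pQ i; omega
    have h1 := sum_g (S *ᵥ u)
    have h2 := sum_g (B *ᵥ v)
    have h3 : 0 ≤ ∑ i, g ((B *ᵥ v) i) := Finset.sum_nonneg (fun i _ => g_nonneg _ (hQ2 i))
    have h4 : 0 ≤ ∑ i, g ((S *ᵥ u) i) := Finset.sum_nonneg (fun i _ => g_nonneg _ (hP2 i))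
    have h5 : 1 ≤ |(S *ᵥ u) 0| := by
      have h0 := hP2 0
      rcases abs_choice ((S *ᵥ u) 0) with h' | h' <;> have := abs_nonneg ((S *ᵥ u) 0) <;> omega
    have h6 : 16 ≤ ∑ i, g ((S *ᵥ u) i) + ∑ i, g ((B *ᵥ v) i) := by
      rcases le_or_gt 9 (∑ j, u j ^ 2) with h9 | h9
      · have := odd_estimate S_entry S_mul' S_mul u hu ho h9
        linarith
      · have := odd_estimate B_entry B_mul' B_mul v hv (by omega) (by omega)
        linarith
    linarith

/-! ### The matrix of order 32 -/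

/-- The first half of the indices. -/
def lft (i : Fin 16) : Fin 32 := Fin.castAdd 16 i

/-- The second half of the indices. -/
def rgt (i : Fin 16) : Fin 32 := Fin.natAdd 16 i

theorem sum32 (f : Fin 32 → ℤ) : ∑ j, f j = ∑ j : Fin 16, f (lft j) + ∑ j : Fin 16, f (rgt j) :=
  Fin.sum_univ_add (a := 16) (b := 16) f

/-- The Hadamard matrix of order 32 before fixing the type of the indices. -/
def H0 (i j : Fin (16 + 16)) : ℤ :=
  Fin.addCases
    (fun i' => Fin.addCases (fun j' => S i' j') (fun j' => S i' j') j)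
    (fun i' => Fin.addCases (fun j' => B i' j') (fun j' => - B i' j') j) i

/-- The Hadamard matrix of order 32. -/
def H : Matrix (Fin 32) (Fin 32) ℤ := fun i j => H0 i j

theorem H_ll (i j : Fin 16) : H (lft i) (lft j) = S i j := by
  unfold H lft H0
  simp only [Fin.addCases_left]
theorem H_lr (i j : Fin 16) : H (lft i) (rgt j) = S i j := by
  unfold H lft rgt H0
  simp only [Fin.addCases_left, Fin.addCases_right]
theorem H_rl (i j : Fin 16) : H (rgt i) (lft j) = B i j := by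
  unfold H lft rgt H0
  simp only [Fin.addCases_left, Fin.addCases_right]
theorem H_rr (i j : Fin 16) : H (rgt i) (rgt j) = - B i j := by
  unfold H rgt H0
  simp only [Fin.addCases_right]

theorem H_hadamard : IsHadamard H := by
  constructor
  · decide +kernel
  · decide +kernel

/-- The bound for all sign vectors on the columns. -/
theorem column_bound (b : Fin 32 → ℤ) (hb : ∀ j, b j = 1 ∨ b j = -1) :
    ∑ i, |∑ j, H i j * b j| - |∑ j, H (lft 0) j * b j| ≤ 166 := by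
  obtain ⟨u, hu⟩ : ∃ u : Fin 16 → ℤ, ∀ j, 2 * u j = b (lft j) + b (rgt j) :=
    ⟨fun j => (b (lft j) + b (rgt j)) / 2, fun j => by
      rcases hb (lft j) with h1 | h1 <;> rcases hb (rgt j) with h2 | h2 <;>
        simp only [h1, h2] <;> norm_num⟩
  obtain ⟨v, hv⟩ : ∃ v : Fin 16 → ℤ, ∀ j, 2 * v j = b (lft j) - b (rgt j) :=
    ⟨fun j => (b (lft j) - b (rgt j)) / 2, fun j => by
      rcases hb (lft j) with h1 | h1 <;> rcases hb (rgt j) with h2 | h2 <;>
        simp only [h1, h2] <;> norm_num⟩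
  have hu3 : ∀ j, u j = 0 ∨ u j = 1 ∨ u j = -1 := by
    intro j
    have := hu j
    rcases hb (lft j) with h1 | h1 <;> rcases hb (rgt j) with h2 | h2 <;>
      omega
  have hv3 : ∀ j, v j = 0 ∨ v j = 1 ∨ v j = -1 := by
    intro j
    have := hv j
    rcases hb (lft j) with h1 | h1 <;> rcases hb (rgt j) with h2 | h2 <;>
      omega
  have huv1 : ∀ j, u j ^ 2 + v j ^ 2 = 1 := by
    intro j
    have e1 := hu j
    have e2 := hv j
    have e3 : (2 * u j) ^ 2 + (2 * v j) ^ 2 = 4 := by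
      rw [e1, e2]
      rcases hb (lft j) with h1 | h1 <;> rcases hb (rgt j) with h2 | h2 <;>
        rw [h1, h2] <;> norm_num
    nlinarith
  have huv : ∑ j, u j ^ 2 + ∑ j, v j ^ 2 = 16 := by
    rw [← Finset.sum_add_distrib, Finset.sum_congr rfl (fun j _ => huv1 j)]
    simp
  have htop : ∀ i : Fin 16, ∑ j, H (lft i) j * b j = 2 * (S *ᵥ u) i := by
    intro i
    rw [sum32]
    simp only [H_ll, H_lr, mulVec, dotProduct]
    rw [← Finset.sum_add_distrib, Finset.mul_sum]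
    apply Finset.sum_congr rfl
    intro j _
    rw [← mul_add, ← hu j]
    ring
  have hbot : ∀ i : Fin 16, ∑ j, H (rgt i) j * b j = 2 * (B *ᵥ v) i := by
    intro i
    rw [sum32]
    simp only [H_rl, H_rr, mulVec, dotProduct]
    rw [← Finset.sum_add_distrib, Finset.mul_sum]
    apply Finset.sum_congr rfl
    intro j _
    have := hv j
    have e : B i j * b (lft j) + -B i j * b (rgt j) =
        B i j * (b (lft j) - b (rgt j)) := by ring
    rw [e, ← this]
    ring
  rw [sum32 (fun i => |∑ j, H i j * b j|)]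
  simp only [htop, hbot, abs_mul, ← Finset.mul_sum]
  have := main_bound u v hu3 hv3 huv
  norm_num
  linarith

theorem value_le (s : Fin 32) (K : ℤ)
    (hK : ∀ b : Fin 32 → ℤ, (∀ j, b j = 1 ∨ b j = -1) →
      ∑ i, |∑ j, H i j * b j| - |∑ j, H s j * b j| ≤ K) (a : {i : Fin 32 // i ≠ s} → ℤˣ) :
    ∑ j, |∑ i : {i : Fin 32 // i ≠ s}, H i j * (a i : ℤ)| ≤ K := by
  set A : Fin 32 → ℤ := fun i => if hi : i ≠ s then ((a ⟨i, hi⟩ : ℤˣ) : ℤ) else 0 with hA
  have hsub : ∀ j : Fin 32, ∑ i : {i : Fin 32 // i ≠ s}, H i j * (a i : ℤ) = ∑ i, H i j * A i := by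
    intro j
    have h1 : ∑ i, H i j * A i = ∑ i ∈ Finset.univ.filter (fun i : Fin 32 => i ≠ s), H i j * A i := by
      rw [Finset.sum_filter_of_ne]
      intro i _ hne hi
      apply hne
      simp [hA, hi]
    rw [h1, Finset.sum_subtype (p := fun i : Fin 32 => i ≠ s) _ (by simp)]
    apply Finset.sum_congr rfl
    intro i _
    simp [hA, i.2]
  have hval : ∑ j, |∑ i : {i : Fin 32 // i ≠ s}, H i j * (a i : ℤ)| = ∑ j, |∑ i, H i j * A i| :=
    Finset.sum_congr rfl (fun j _ => by rw [hsub j])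
  refine le_trans (le_of_eq hval) ?_
  set c : Fin 32 → ℤ := fun j => ∑ i, H i j * A i with hc
  set b : Fin 32 → ℤ := fun j => if 0 ≤ c j then 1 else -1 with hbdef
  have hb : ∀ j, b j = 1 ∨ b j = -1 := by
    intro j
    simp only [hbdef]
    split_ifs <;> simp
  have habs : ∀ j, |c j| = b j * c j := by
    intro j
    simp only [hbdef]
    split_ifs with h'
    · rw [abs_of_nonneg h', one_mul]
    · rw [abs_of_neg (by omega)]; ring
  have hAabs : ∀ i, i ≠ s → |A i| = 1 := by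
    intro i hi
    simp only [hA, dif_pos hi]
    rcases Int.units_eq_one_or (a ⟨i, hi⟩) with h' | h' <;> rw [h'] <;> simp
  have hAs : A s = 0 := by simp [hA]
  calc ∑ j, |∑ i, H i j * A i| = ∑ j, b j * c j := Finset.sum_congr rfl (fun j _ => habs j)
    _ = ∑ i, A i * ∑ j, H i j * b j := by
        simp only [hc, Finset.mul_sum]
        rw [Finset.sum_comm]
        apply Finset.sum_congr rfl
        intro i _
        apply Finset.sum_congr rfl
        intro j _
        ring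
    _ ≤ ∑ i, |A i| * |∑ j, H i j * b j| := by
        apply Finset.sum_le_sum
        intro i _
        rw [← abs_mul]
        exact le_abs_self _
    _ = ∑ i ∈ Finset.univ.erase s, |∑ j, H i j * b j| := by
        rw [← Finset.add_sum_erase _ _ (Finset.mem_univ s), hAs, abs_zero, zero_mul, zero_add]
        apply Finset.sum_congr rfl
        intro i hi
        rw [hAabs i (Finset.ne_of_mem_erase hi), one_mul]
    _ = ∑ i, |∑ j, H i j * b j| - |∑ j, H s j * b j| := by
        rw [← Finset.add_sum_erase _ _ (Finset.mem_univ s)]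
        ring
    _ ≤ K := hK b hb

theorem C_le : C H (lft 0) ≤ 166 := by
  unfold C
  apply Finset.sup'_le
  intro a _
  exact value_le (lft 0) 166 column_bound a

/-- The rows with a negative sign in the optimal sign vector for the row `19`. -/
def negRows : List ℕ := [1, 2, 3, 4, 5, 6, 7, 8, 11, 14, 16, 17, 21, 23, 25, 27, 30, 31]

/-- The optimal sign vector for the row `19`. -/
def optSign (i : {i : Fin 32 // i ≠ 19}) : ℤˣ := if i.1.val ∈ negRows then -1 else 1

theorem le_C : 168 ≤ C H 19 := by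
  unfold C
  refine le_trans ?_ (Finset.le_sup' _ (Finset.mem_univ optSign))
  decide +kernel

/-- There is a Hadamard matrix of order `32 = 4 * 8` for which the maximum depends on the deleted
row. -/
theorem result : ∃ (H : Matrix (Fin 32) (Fin 32) ℤ) (r s : Fin 32), IsHadamard H ∧ C H s < C H r :=
  ⟨H, 19, lft 0, H_hadamard, lt_of_le_of_lt C_le (lt_of_lt_of_le (by norm_num) le_C)⟩

end Pool.Agent.Results.MP_ba6bee_co.Counterexample
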